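import Pool.Agent.Lib.helper9.TokE

namespace Pool.Agent.Results.MP_901ac1_lc.EXPTIME

open Pool.Agent.Cx

/-- An instance `(t, E, p)`: vertices are the indices of `p`; `p[v] = 0` if `v` is empty and
`p[v] = i` if `v` holds a token of type `i`; `(i, u, v) ∈ E` means that `(u, v) ∈ E_i`. -/
abbrev Inst := ℕ × List (ℕ × ℕ × ℕ) × List ℕ

/-- types lie in `1, …, t`, edges join distinct vertices -/
def Valid (I : Inst) : Prop := (∀ e ∈ I.2.1, 1 ≤ e.1 ∧ e.1 ≤ I.1 ∧ e.2.1 < I.2.2.length ∧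
  e.2.2 < I.2.2.length ∧ e.2.1 ≠ e.2.2) ∧ ∀ x ∈ I.2.2, x ≤ I.1

/-- a token of type `i` slides along an edge `(u, v)` of `E_i` and replaces any token on `v` -/
def Move (E : List (ℕ × ℕ × ℕ)) (p q : List ℕ) : Prop := ∃ e ∈ E, p.getD e.2.1 0 = e.1 ∧
  q = (p.set e.2.1 0).set e.2.2 e.1

/-- valid instances whose number of types satisfies `C` and whose outcome is `o` -/
def Hit (C : ℕ → Prop) (o : Option Bool) (I : Inst) : Prop :=
  C I.1 ∧ Valid I ∧ Outcome (Move I.2.1) I.2.2 o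

theorem result (o : Option Bool) : EXPTIMEComplete (Lang (Hit (fun _ => True) o)) ∧
    (∀ t, 2 ≤ t → EXPTIMEComplete (Lang (Hit (· = t) o))) ∧
    (InPSPACE (Lang (Hit (fun _ => True) o)) ↔ ∀ L, InEXPTIME L → InPSPACE L) := by
  have e : Move = TMv true := by
    funext E p q; simp [Move, TMv]
  unfold Hit
  rw [e]
  have h := Tok.tok_compl true o (C := fun _ => True) (by fun_prop) le_rfl fun _ => trivial
  exact ⟨h, fun t ht => Tok.tok_compl true o (by fun_prop) ht fun _ => rfl,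
    (Tok.tok_hard true o le_rfl fun _ => trivial).ps_eq, fun h' => h' _ h.1⟩

end Pool.Agent.Results.MP_901ac1_lc.EXPTIME
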